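import Pool.Agent.Helper40.RK.GoalsE
import Pool.Agent.Helper95.RK.Basics
import Pool.Agent.Helper27.Lin.Montel

/-!
# RK-NETK: finite nets, corank `k`
-/

open Complex Metric Set Filter Topology MeasureTheory Matrix
open scoped ContDiff ComplexConjugate

namespace Pool.Agent.Helper14.RK

open Pool.Agent.Helper95.Lin Pool.Agent.Helper10.SP Pool.Agent.Helper95.RK Pool.Agent.Helper36.RK
  Pool.Agent.Helper40.RK

/-- Entrywise bounds give `MB`, with a constant that is never zero. -/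
lemma mb_of_entry' {k : ℕ} {A : Matrix (Fin k) (Fin k) ℂ} {η : ℝ}
    (h : ∀ i j, ‖A i j‖ ≤ η / (k + 1)) (hη : 0 ≤ η) : MB A η := by
  refine (MB.of_entry h).mono ?_
  have hk : (0 : ℝ) < k + 1 := by positivity
  rw [mul_div_assoc', div_le_iff₀ hk]
  nlinarith

/-- The entries of a matrix as a vector. -/
def mvec {k : ℕ} (A : Matrix (Fin k) (Fin k) ℂ) : Cn (k * k) :=
  fun p => A (finProdFinEquiv.symm p).1 (finProdFinEquiv.symm p).2

lemma mvec_apply {k : ℕ} (A : Matrix (Fin k) (Fin k) ℂ) (i j : Fin k) :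
    mvec A (finProdFinEquiv (i, j)) = A i j := by
  simp [mvec]

lemma norm_mvec_le {k : ℕ} {A : Matrix (Fin k) (Fin k) ℂ} {B : ℝ} (hB : 0 ≤ B)
    (h : ∀ i j, ‖A i j‖ ≤ B) : ‖mvec A‖ ≤ B := by
  rw [pi_norm_le_iff_of_nonneg hB]
  intro p
  exact h _ _

lemma entry_le_norm_mvec {k : ℕ} (A : Matrix (Fin k) (Fin k) ℂ) (i j : Fin k) :
    ‖A i j‖ ≤ ‖mvec A‖ := by
  rw [← mvec_apply A i j]
  exact norm_le_pi_norm (mvec A) _

theorem netk : S_NETK := by
  intro b k N c R P Φ Hf C hA i A hAB η hη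
  classical
  by_contra hcon
  push Not at hcon
  -- the greedy sequence
  have hstep : ∀ S : Finset (TriK b k), (∀ x ∈ S, x ∈ A) → ∃ y, y ∈ A ∧ ∀ x ∈ S,
      ¬ ∀ z ∈ ball (c i) 3, ‖y.g z - x.g z‖ ≤ η ∧ MB (y.A z - x.A z) η := by
    intro S hS
    obtain ⟨t, ht, hk⟩ := hcon S.card (fun k => (S.equivFin.symm k : TriK b _))
      (fun k => hS _ (S.equivFin.symm k).2)
    refine ⟨t, ht, fun x hx hclose => ?_⟩
    obtain ⟨z, hz, h⟩ := hk (S.equivFin ⟨x, hx⟩)
    have := hclose z hz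
    simp only [Equiv.symm_apply_apply] at h
    exact h this.1 this.2
  obtain ⟨f, hfA, hfr⟩ := exists_seq_of_forall_finset_exists (fun t => t ∈ A)
    (fun x y => ¬ ∀ z ∈ ball (c i) 3, ‖y.g z - x.g z‖ ≤ η ∧ MB (y.A z - x.A z) η) hstep
  have hbig : ∀ k, BigK c P i (f k) := fun k => hAB _ (hfA k)
  have hholo := fun k => hA.holo _ _ (hbig k).1
  obtain ⟨B, hB⟩ := (Bornology.isBounded_iUnion.2
    (fun j : Fin N => (isBounded_ball : Bornology.IsBounded (ball (c j) R)))).exists_norm_le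
  obtain ⟨φ, hφ, F, -, hF⟩ := _root_.Helper27.LinMontel.montel (ball (c i) 4) isOpen_ball
    (fun k => (f k).g) (fun k => (hholo k).2.2.1.1)
    (fun K hK _ => ⟨B, fun k z hz => hB _ ((hholo k).2.2.2 z (hK hz)).1⟩)
  have hC0 : (0 : ℝ) ≤ C := by linarith [hA.Cge]
  obtain ⟨ψ, hψ, F', -, hF'⟩ := _root_.Helper27.LinMontel.montel (m := k * k) (ball (c i) 4)
    isOpen_ball (fun n z => mvec ((f (φ n)).A z))
    (fun n => differentiableOn_pi.2 fun p => (hholo (φ n)).2.2.1.2.1 _ _)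
    (fun K hK _ => ⟨C, fun n z hz => norm_mvec_le hC0 fun p q =>
      ((hA.abd i _ (hbig _) z (hK hz)).1).entry p q⟩)
  have hsub : closedBall (c i) 3 ⊆ ball (c i) 4 := closedBall_subset_ball (by norm_num)
  have hk1 : (0 : ℝ) < k + 1 := by positivity
  have h1 := hψ.tendsto_atTop.eventually
    (hF (closedBall (c i) 3) hsub (isCompact_closedBall _ _) (η / 2) (by positivity))
  have h2 := hF' (closedBall (c i) 3) hsub (isCompact_closedBall _ _) (η / (k + 1) / 2)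
    (by positivity)
  obtain ⟨K, hK⟩ := eventually_atTop.1 (h1.and h2)
  have hlt : φ (ψ K) < φ (ψ (K + 1)) := hφ (hψ (Nat.lt_succ_self K))
  apply hfr _ _ hlt
  intro z hz
  have hz' : z ∈ closedBall (c i) 3 := ball_subset_closedBall hz
  obtain ⟨a1, a2⟩ := hK K le_rfl
  obtain ⟨b1, b2⟩ := hK (K + 1) (Nat.le_succ K)
  constructor
  · calc ‖(f (φ (ψ (K + 1)))).g z - (f (φ (ψ K))).g z‖
        = ‖((f (φ (ψ (K + 1)))).g z - F z) - ((f (φ (ψ K))).g z - F z)‖ := by
          rw [sub_sub_sub_cancel_right]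
      _ ≤ ‖(f (φ (ψ (K + 1)))).g z - F z‖ + ‖(f (φ (ψ K))).g z - F z‖ := norm_sub_le _ _
      _ ≤ η / 2 + η / 2 := add_le_add (b1 z hz') (a1 z hz')
      _ = η := by ring
  · refine mb_of_entry' (fun p q => ?_) hη.le
    have c1 : ‖(f (φ (ψ K))).A z p q - F' z (finProdFinEquiv (p, q))‖ ≤ η / (k + 1) / 2 := by
      refine le_trans ?_ (a2 z hz')
      have := norm_le_pi_norm (mvec ((f (φ (ψ K))).A z) - F' z) (finProdFinEquiv (p, q))
      rwa [Pi.sub_apply, mvec_apply] at this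
    have c2 : ‖(f (φ (ψ (K + 1)))).A z p q - F' z (finProdFinEquiv (p, q))‖ ≤
        η / (k + 1) / 2 := by
      refine le_trans ?_ (b2 z hz')
      have := norm_le_pi_norm (mvec ((f (φ (ψ (K + 1)))).A z) - F' z) (finProdFinEquiv (p, q))
      rwa [Pi.sub_apply, mvec_apply] at this
    rw [Matrix.sub_apply]
    calc ‖(f (φ (ψ (K + 1)))).A z p q - (f (φ (ψ K))).A z p q‖
        = ‖((f (φ (ψ (K + 1)))).A z p q - F' z (finProdFinEquiv (p, q))) -
            ((f (φ (ψ K))).A z p q - F' z (finProdFinEquiv (p, q)))‖ := by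
          rw [sub_sub_sub_cancel_right]
      _ ≤ ‖(f (φ (ψ (K + 1)))).A z p q - F' z (finProdFinEquiv (p, q))‖ +
            ‖(f (φ (ψ K))).A z p q - F' z (finProdFinEquiv (p, q))‖ := norm_sub_le _ _
      _ ≤ η / (k + 1) / 2 + η / (k + 1) / 2 := add_le_add c2 c1
      _ = η / (k + 1) := by ring

end Pool.Agent.Helper14.RK
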