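import Pool.Agent.Helper40.RK.GoalsE
import Pool.Agent.Helper95.RK.Basics
import Pool.Agent.Helper19.Lin.IDT
import Pool.Agent.Helper27.Lin.Montel
import Pool.Agent.Helper14.RK.NETK

/-! # RK-NCVK: near the identity on a small ball implies near the identity on larger balls -/

open Complex Metric Set Filter Topology MeasureTheory Matrix
open scoped ContDiff ComplexConjugate

namespace Pool.Agent.Helper14.RK

open Pool.Agent.Helper95.Lin Pool.Agent.Helper10.SP Pool.Agent.Helper95.RK Pool.Agent.Helper36.RK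
  Pool.Agent.Helper40.RK

lemma mvec_sub {k : ℕ} (A B : Matrix (Fin k) (Fin k) ℂ) : mvec A - mvec B = mvec (A - B) := rfl

lemma ptK_sub {b k : ℕ} (z z' : Cn b) (w w' : Cn k) : ptK z w - ptK z' w' = ptK (z - z') (w - w') := by
  apply ext_base_fib
  · rw [base_sub, base_ptK, base_ptK, base_ptK]
  · rw [fib_sub, fib_ptK, fib_ptK, fib_ptK]

lemma norm_ptK_le {b k : ℕ} {z : Cn b} {w : Cn k} {B : ℝ} (hz : ‖z‖ ≤ B) (hw : ‖w‖ ≤ B) :
    ‖ptK z w‖ ≤ B := by
  rw [norm_ptK]; exact max_le hz hw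

lemma differentiableOn_ptK {m b k : ℕ} {U : Set (Cn m)} {f : Cn m → Cn b} {g : Cn m → Cn k}
    (hf : DifferentiableOn ℂ f U) (hg : DifferentiableOn ℂ g U) :
    DifferentiableOn ℂ (fun z => ptK (f z) (g z)) U :=
  (ptL b k).differentiable.comp_differentiableOn (hf.prodMk hg)

/-- uniform bounds for `BigK` maps -/
lemma bigK_bdd {b k N : ℕ} {c : Fin N → Cn b} {R : ℝ} {P : Set (Cn b) → TriK b k → Prop}
    {Φ : Cn b → ℝ} {Hf : Cn b → Matrix (Fin k) (Fin k) ℂ} {C : ℝ} (h : AFolK c R P Φ Hf C)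
    (i : Fin N) :
    ∃ B : ℝ, 0 ≤ B ∧ ∀ t, BigK c P i t → ∀ z ∈ ball (c i) 4, ‖t.g z‖ ≤ B ∧
      ∀ p q, ‖t.A z p q‖ ≤ B := by
  have hC : 0 ≤ C := by linarith [h.Cge]
  obtain ⟨M, hM⟩ : ∃ M : ℝ, ∀ j, ‖c j‖ ≤ M :=
    ⟨∑ j, ‖c j‖, fun j => Finset.single_le_sum (f := fun j => ‖c j‖)
      (fun j _ => norm_nonneg _) (Finset.mem_univ j)⟩
  have hM0 : 0 ≤ M := (norm_nonneg _).trans (hM i)
  refine ⟨M + 2 + 8 * C, by linarith, fun t ht z hz => ?_⟩
  obtain ⟨hP, z₀, hz₀, hz₀g⟩ := ht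
  have hz₀4 : z₀ ∈ ball (c i) 4 := ball_subset_ball (by norm_num) hz₀
  have h1 := h.lip i t ⟨hP, z₀, hz₀, hz₀g⟩ z hz z₀ hz₀4
  have h2 : ‖z - z₀‖ ≤ 8 := by
    rw [← dist_eq_norm]
    have := dist_triangle_right z z₀ (c i)
    rw [mem_ball] at hz hz₀
    linarith
  obtain ⟨j, hj⟩ := mem_iUnion.1 hz₀g
  have h3 : ‖t.g z₀‖ ≤ M + 2 := by
    rw [mem_ball, dist_eq_norm] at hj
    have := norm_le_norm_add_norm_sub' (t.g z₀) (c j)
    linarith [hM j]
  have h4 := norm_le_norm_add_norm_sub' (t.g z) (t.g z₀)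
  have h5 : C * ‖z - z₀‖ ≤ C * 8 := mul_le_mul_of_nonneg_left h2 hC
  refine ⟨by linarith, fun p q => ?_⟩
  have h6 := (h.abd i t ⟨hP, z₀, hz₀, hz₀g⟩ z hz).1.entry p q
  linarith

theorem ncvk : S_NCVK := by
  intro b k N c R P Φ Hf C h i x ρ₀ hρ₀ hxi ρ hρ ε hε
  by_contra hcon
  push Not at hcon
  have hseq : ∀ n : ℕ, ∃ t, BigK c P i t ∧
      (∀ z ∈ ball x ρ₀, ‖t.g z - z‖ ≤ 1 / ((n : ℝ) + 1) ∧ MB (t.A z - 1) (1 / ((n : ℝ) + 1))) ∧
      ∃ z ∈ ball (c i) ρ, (‖t.g z - z‖ ≤ ε → ¬ MB (t.A z - 1) ε) := by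
    intro n
    obtain ⟨t, h1, h2, h3⟩ := hcon (1 / ((n : ℝ) + 1)) (by positivity)
    exact ⟨t, h1, h2, h3⟩
  choose t hB hnear z hz hfar using hseq
  obtain ⟨B, hB0, hBB⟩ := bigK_bdd h i
  set f : ℕ → Cn b → Cn (b + k * k) := fun n z => ptK ((t n).g z) (mvec ((t n).A z)) with hf
  have hfd : ∀ n, DifferentiableOn ℂ (f n) (ball (c i) 4) := by
    intro n
    obtain ⟨-, -, h1, -⟩ := h.holo _ _ (hB n).1
    exact differentiableOn_ptK h1.1 (differentiableOn_pi.2 fun p => h1.2.1 _ _)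
  obtain ⟨φ, hφ, F, hF, hlim⟩ := _root_.Helper27.LinMontel.montel (ball (c i) 4) isOpen_ball f hfd
    (fun K hK _ => ⟨B, fun k z hz => norm_ptK_le (hBB _ (hB k) z (hK hz)).1
      (norm_mvec_le hB0 (hBB _ (hB k) z (hK hz)).2)⟩)
  have hFx : ∀ z ∈ ball x ρ₀, F z = ptK z (mvec 1) := by
    intro z hz
    have hz4 := hxi hz
    have t1 : Tendsto (fun k => f (φ k) z) atTop (𝓝 (F z)) := by
      rw [Metric.tendsto_atTop']
      intro δ hδ
      have h1 := hlim {z} (singleton_subset_iff.2 hz4) isCompact_singleton (δ / 2) (half_pos hδ)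
      obtain ⟨n, hn⟩ := eventually_atTop.1 h1
      refine ⟨n, fun k hk => ?_⟩
      rw [dist_eq_norm]
      exact lt_of_le_of_lt (hn k hk.le z rfl) (half_lt_self hδ)
    have t2 : Tendsto (fun k => f (φ k) z) atTop (𝓝 (ptK z (mvec 1))) := by
      rw [tendsto_iff_norm_sub_tendsto_zero]
      refine squeeze_zero (fun k => norm_nonneg _) (g := fun k => 1 / ((φ k : ℝ) + 1)) ?_ ?_
      · intro k
        rw [hf]
        simp only []
        rw [ptK_sub, mvec_sub]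
        exact norm_ptK_le (hnear (φ k) z hz).1
          (norm_mvec_le (by positivity) fun p q => (hnear (φ k) z hz).2.entry p q)
      · exact tendsto_one_div_add_atTop_nhds_zero_nat.comp hφ.tendsto_atTop
    exact tendsto_nhds_unique t1 t2
  have hFall : ∀ z ∈ ball (c i) 4, F z = ptK z (mvec 1) := by
    have hx4 : x ∈ ball (c i) 4 := hxi (mem_ball_self hρ₀)
    have hd : DifferentiableOn ℂ (fun z : Cn b => F z - ptK z (mvec (1 : Matrix (Fin k) (Fin k) ℂ)))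
        (ball (c i) 4) :=
      hF.sub (differentiableOn_ptK differentiableOn_id (differentiableOn_const _))
    have := _root_.Pool.Agent.Helper19.Lin.idt (ball (c i) 4) isOpen_ball
      (convex_ball _ _).isPreconnected _ hd x hx4 (by
        filter_upwards [ball_mem_nhds x hρ₀] with z hz
        rw [hFx z hz, sub_self])
    intro z hz
    exact sub_eq_zero.1 (this z hz)
  have hk1 : (0 : ℝ) < k + 1 := by positivity
  obtain ⟨n, hn⟩ := eventually_atTop.1 (hlim (closedBall (c i) ρ)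
    (closedBall_subset_ball hρ) (isCompact_closedBall _ _) (ε / (k + 1)) (by positivity))
  have h1 := hn n le_rfl (z (φ n)) (ball_subset_closedBall (hz (φ n)))
  rw [hFall _ (ball_subset_ball hρ.le (hz (φ n))), hf] at h1
  simp only [] at h1
  rw [ptK_sub, mvec_sub, norm_ptK] at h1
  have h2 := (le_max_left _ _).trans h1
  have h3 := (le_max_right _ _).trans h1
  have hle : ε / (k + 1) ≤ ε := by
    refine div_le_self hε.le ?_
    have : (0 : ℝ) ≤ k := Nat.cast_nonneg k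
    linarith
  exact hfar (φ n) (h2.trans hle)
    (mb_of_entry' (fun p q => (entry_le_norm_mvec _ p q).trans h3) hε.le)

end Pool.Agent.Helper14.RK
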