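import Pool.Agent.Helper15.RK.GoalsF

/-! # RK-A ALGG: from the quadratic form to the curvature, Griffiths case -/

open Complex Matrix
open scoped ComplexConjugate ComplexOrder Matrix MatrixOrder

namespace Pool.Agent.Helper14.RK

open Pool.Agent.Helper95.Lin Pool.Agent.Helper16.Abund Pool.Agent.Helper92.Orb
  Pool.Agent.Helper10.SP Pool.Agent.Helper95.RK Pool.Agent.Helper15.RK

lemma sum4_comm {ι₁ ι₂ ι₃ ι₄ : Type*} [Fintype ι₁] [Fintype ι₂] [Fintype ι₃] [Fintype ι₄]
    (f : ι₁ → ι₂ → ι₃ → ι₄ → ℂ) :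
    ∑ a, ∑ b, ∑ c, ∑ d, f a b c d = ∑ c, ∑ d, ∑ a, ∑ b, f a b c d := by
  calc ∑ a, ∑ b, ∑ c, ∑ d, f a b c d = ∑ a, ∑ c, ∑ b, ∑ d, f a b c d :=
        Finset.sum_congr rfl fun a _ => Finset.sum_comm
    _ = ∑ c, ∑ a, ∑ b, ∑ d, f a b c d := Finset.sum_comm
    _ = ∑ c, ∑ a, ∑ d, ∑ b, f a b c d :=
        Finset.sum_congr rfl fun c _ => Finset.sum_congr rfl fun a _ => Finset.sum_comm
    _ = ∑ c, ∑ d, ∑ a, ∑ b, f a b c d :=
        Finset.sum_congr rfl fun c _ => Finset.sum_comm

/-- Contraction of a product form. -/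
lemma contr {k l : ℕ} (x : Fin k → ℂ) (U V : Fin k → Fin l → ℂ) (K : Matrix (Fin l) (Fin l) ℂ) :
    ∑ α, ∑ β, x α * conj (x β) * ∑ p, ∑ q, U α q * K q p * conj (V β p) =
      ∑ p, ∑ q, (∑ α, x α * U α q) * K q p * conj (∑ β, x β * V β p) := by
  calc ∑ α, ∑ β, x α * conj (x β) * ∑ p, ∑ q, U α q * K q p * conj (V β p)
      = ∑ α, ∑ β, ∑ p, ∑ q, x α * U α q * K q p * conj (x β * V β p) := by
        refine Finset.sum_congr rfl fun α _ => Finset.sum_congr rfl fun β _ => ?_
        rw [Finset.mul_sum]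
        refine Finset.sum_congr rfl fun p _ => ?_
        rw [Finset.mul_sum]
        refine Finset.sum_congr rfl fun q _ => ?_
        rw [map_mul]; ring
    _ = ∑ p, ∑ q, ∑ α, ∑ β, x α * U α q * K q p * conj (x β * V β p) := sum4_comm _
    _ = _ := by
        refine Finset.sum_congr rfl fun p _ => Finset.sum_congr rfl fun q _ => ?_
        rw [map_sum, Finset.sum_mul, Finset.sum_mul]
        refine Finset.sum_congr rfl fun α _ => ?_
        rw [Finset.mul_sum]

lemma conj_hermi {k : ℕ} {A : Matrix (Fin k) (Fin k) ℂ} (hA : A.IsHermitian) (u v : Cn k) :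
    conj (hermi A u v) = hermi A v u := by
  unfold hermi
  simp only [map_sum]
  rw [Finset.sum_comm]
  refine Finset.sum_congr rfl fun j _ => Finset.sum_congr rfl fun i _ => ?_
  rw [map_mul, map_mul, Complex.conj_conj]
  have : conj (A i j) = A j i := hA.apply j i
  rw [this]; ring

lemma im_eq_zero_of_conj {z : ℂ} (h : conj z = z) : z.im = 0 := Complex.conj_eq_iff_im.1 h

/-- A matrix with vanishing quadratic form vanishes. -/
lemma eq_zero_of_hermi (hT : S_TRP) {k : ℕ} {M : Matrix (Fin k) (Fin k) ℂ}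
    (h : ∀ c : Cn k, hermi M c c = 0) : M = 0 := by
  refine (hT (1 : Matrix (Fin k) (Fin k) ℂ) M Matrix.PosDef.one
    (fun c => by rw [h c]; simp)).2.2 ?_
  rw [inv_one, Matrix.one_mul, Matrix.trace]
  have : ∑ i, M.diag i = 0 := Finset.sum_eq_zero fun i _ => by
    have := h (Pi.single i 1)
    unfold hermi at this
    rw [Finset.sum_eq_single i, Finset.sum_eq_single i] at this
    · simpa using this
    · intro b _ hb
      rw [Pi.single_eq_of_ne hb]; simp
    · intro h; exact absurd (Finset.mem_univ _) h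
    · intro b _ hb
      refine Finset.sum_eq_zero fun j _ => ?_
      rw [Pi.single_eq_of_ne hb]; simp
    · intro h; exact absurd (Finset.mem_univ _) h
  rw [this]; rfl

/-- RK-A ALGG. -/
theorem algg (hT : S_TRP) : S_ALGG := by
  intro k G D1 D2 C hG hD2 hC hyp
  have hGd : IsUnit G.det := by
    rw [isUnit_iff_ne_zero]; exact hG.det_pos.ne'
  have hGi : (G⁻¹).IsHermitian := hG.isHermitian.inv
  -- the matrix for fixed `c`
  have main : ∀ c : Cn k, ∀ s : Cn k,
      (hermi (Matrix.of fun γ δ => - ∑ α, ∑ β, c α * conj (c β) * C α β γ δ) s s).im = 0 ∧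
      0 ≤ (hermi (Matrix.of fun γ δ => - ∑ α, ∑ β, c α * conj (c β) * C α β γ δ) s s).re := by
    intro c s
    set m : Cn k := fun q => ∑ γ, s γ * ∑ α, c α * D1 α γ q with hm
    set S2 : ℂ := ∑ α, ∑ β, ∑ γ, ∑ δ, c α * conj (c β) * s γ * conj (s δ) * D2 α β γ δ with hS2
    have hK : hermi (Matrix.of fun γ δ => - ∑ α, ∑ β, c α * conj (c β) * C α β γ δ) s s =
        S2 - hermi G⁻¹ m m := by
      have h1 : ∀ γ δ, ∑ α, ∑ β, c α * conj (c β) * C α β γ δ =
          - (∑ α, ∑ β, c α * conj (c β) * D2 α β γ δ) +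
          ∑ p, ∑ q, (∑ α, c α * D1 α γ q) * G⁻¹ q p * conj (∑ β, c β * D1 β δ p) := by
        intro γ δ
        rw [← contr c (fun α q => D1 α γ q) (fun β p => D1 β δ p) G⁻¹, ← Finset.sum_neg_distrib,
          ← Finset.sum_add_distrib]
        refine Finset.sum_congr rfl fun α _ => ?_
        rw [← Finset.sum_neg_distrib, ← Finset.sum_add_distrib]
        refine Finset.sum_congr rfl fun β _ => ?_
        rw [hC]; ring
      have h2 := contr s (fun γ q => ∑ α, c α * D1 α γ q) (fun δ p => ∑ β, c β * D1 β δ p) G⁻¹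
      have h3 : hermi G⁻¹ m m = ∑ γ, ∑ δ, s γ * conj (s δ) *
          ∑ p, ∑ q, (∑ α, c α * D1 α γ q) * G⁻¹ q p * conj (∑ β, c β * D1 β δ p) := by
        rw [h2]
        unfold hermi
        rw [Finset.sum_comm]
        refine Finset.sum_congr rfl fun p _ => Finset.sum_congr rfl fun q _ => ?_
        rw [hm]; ring
      have h4 : S2 = ∑ γ, ∑ δ, s γ * conj (s δ) * ∑ α, ∑ β, c α * conj (c β) * D2 α β γ δ := by
        rw [hS2, sum4_comm]
        refine Finset.sum_congr rfl fun γ _ => Finset.sum_congr rfl fun δ _ => ?_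
        rw [Finset.mul_sum]
        refine Finset.sum_congr rfl fun α _ => ?_
        rw [Finset.mul_sum]
        refine Finset.sum_congr rfl fun β _ => ?_
        ring
      rw [h3, h4, ← Finset.sum_sub_distrib]
      unfold hermi
      refine Finset.sum_congr rfl fun γ _ => ?_
      rw [← Finset.sum_sub_distrib]
      refine Finset.sum_congr rfl fun δ _ => ?_
      rw [Matrix.of_apply, h1]
      ring
    have hS2r : conj S2 = S2 := by
      rw [hS2]
      simp only [map_sum, map_mul, Complex.conj_conj, hD2]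
      rw [Finset.sum_comm]
      refine Finset.sum_congr rfl fun α _ => Finset.sum_congr rfl fun β _ => ?_
      rw [Finset.sum_comm]
      refine Finset.sum_congr rfl fun γ _ => Finset.sum_congr rfl fun δ _ => ?_
      ring
    have hNr : (hermi G⁻¹ m m).im = 0 := im_eq_zero_of_conj (conj_hermi hGi m m)
    refine ⟨by rw [hK, Complex.sub_im, im_eq_zero_of_conj hS2r, hNr, sub_zero], ?_⟩
    -- the choice of `a`
    set a : Cn k := fun γ => - ∑ q, m q * G⁻¹ q γ with ha
    have h5 := hyp c s a
    have h6 : ∑ β, ∑ γ, ∑ δ, conj (c β) * a γ * conj (s δ) * conj (D1 β δ γ) =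
        - hermi G⁻¹ m m := by
      calc ∑ β, ∑ γ, ∑ δ, conj (c β) * a γ * conj (s δ) * conj (D1 β δ γ)
          = ∑ γ, ∑ β, ∑ δ, conj (c β) * a γ * conj (s δ) * conj (D1 β δ γ) := Finset.sum_comm
        _ = ∑ γ, a γ * conj (m γ) := by
            refine Finset.sum_congr rfl fun γ _ => ?_
            rw [Finset.sum_comm, hm, map_sum, Finset.mul_sum]
            refine Finset.sum_congr rfl fun δ _ => ?_
            rw [map_mul, map_sum, Finset.mul_sum, Finset.mul_sum]
            refine Finset.sum_congr rfl fun β _ => ?_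
            rw [map_mul]; ring
        _ = _ := by
            rw [ha]
            unfold hermi
            rw [Finset.sum_comm, ← Finset.sum_neg_distrib]
            refine Finset.sum_congr rfl fun γ _ => ?_
            rw [neg_mul, Finset.sum_mul]
            congr 1
            refine Finset.sum_congr rfl fun q _ => ?_
            ring
    have h7 : ∑ γ, ∑ δ, a γ * conj (a δ) * G γ δ = conj (hermi G⁻¹ m m) := by
      have haG : ∀ δ, ∑ γ, a γ * G γ δ = - m δ := by
        intro δ
        have h8 : (m ᵥ* G⁻¹) ᵥ* G = m := by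
          rw [Matrix.vecMul_vecMul, Matrix.nonsing_inv_mul G hGd, Matrix.vecMul_one]
        have h9 := congrFun h8 δ
        rw [← h9]
        simp only [Matrix.vecMul, dotProduct, ha]
        rw [← Finset.sum_neg_distrib]
        refine Finset.sum_congr rfl fun γ _ => ?_
        ring
      calc ∑ γ, ∑ δ, a γ * conj (a δ) * G γ δ = ∑ δ, ∑ γ, a γ * conj (a δ) * G γ δ :=
            Finset.sum_comm
        _ = ∑ δ, - m δ * conj (a δ) := by
            refine Finset.sum_congr rfl fun δ _ => ?_
            rw [← haG, Finset.sum_mul]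
            refine Finset.sum_congr rfl fun γ _ => ?_
            ring
        _ = _ := by
            unfold hermi
            rw [Finset.sum_comm]
            simp only [map_sum]
            refine Finset.sum_congr rfl fun δ _ => ?_
            rw [ha, map_neg, map_sum, neg_mul_neg, Finset.mul_sum]
            refine Finset.sum_congr rfl fun q _ => ?_
            simp only [map_mul, Complex.conj_conj]
            ring
    rw [h6, h7, Complex.conj_re, Complex.neg_re, ← hS2] at h5
    rw [hK, Complex.sub_re]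
    linarith
  have htr : ∀ c : Cn k, Matrix.trace (G⁻¹ * Matrix.of fun γ δ => - ∑ α, ∑ β, c α * conj (c β) *
      C α β γ δ) = - hermi (Matrix.of fun α β => ∑ γ, ∑ δ, G⁻¹ δ γ * C α β γ δ) c c := by
    intro c
    simp only [Matrix.trace, Matrix.diag, Matrix.mul_apply, Matrix.of_apply, hermi]
    rw [← Finset.sum_neg_distrib]
    calc ∑ δ, ∑ γ, G⁻¹ δ γ * - ∑ α, ∑ β, c α * conj (c β) * C α β γ δ
        = ∑ δ, ∑ γ, ∑ α, ∑ β, - (G⁻¹ δ γ * (c α * conj (c β) * C α β γ δ)) := by
          refine Finset.sum_congr rfl fun δ _ => Finset.sum_congr rfl fun γ _ => ?_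
          rw [mul_neg, Finset.mul_sum, ← Finset.sum_neg_distrib]
          refine Finset.sum_congr rfl fun α _ => ?_
          rw [Finset.mul_sum, ← Finset.sum_neg_distrib]
      _ = ∑ α, ∑ β, ∑ δ, ∑ γ, - (G⁻¹ δ γ * (c α * conj (c β) * C α β γ δ)) := sum4_comm _
      _ = _ := by
          refine Finset.sum_congr rfl fun α _ => ?_
          rw [← Finset.sum_neg_distrib]
          refine Finset.sum_congr rfl fun β _ => ?_
          rw [Finset.sum_comm, mul_assoc, Finset.sum_mul, ← Finset.sum_neg_distrib]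
          refine Finset.sum_congr rfl fun γ _ => ?_
          rw [Finset.sum_mul, ← Finset.sum_neg_distrib]
          refine Finset.sum_congr rfl fun δ _ => ?_
          ring
  refine ⟨fun c => ?_, fun h0 => ?_⟩
  · have h1 := hT G _ hG (main c)
    rw [htr c] at h1
    constructor
    · have := h1.1; rw [Complex.neg_im, neg_eq_zero] at this; exact this
    · have := h1.2.1; rw [Complex.neg_re] at this; linarith
  · have h1 : ∀ c : Cn k, ∀ γ δ, ∑ α, ∑ β, c α * conj (c β) * C α β γ δ = 0 := by
      intro c γ δ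
      have h2 := (hT G _ hG (main c)).2.2 (by
        rw [htr c]
        have : (Matrix.of fun α β => ∑ γ, ∑ δ, G⁻¹ δ γ * C α β γ δ) = 0 := by
          ext α β; exact h0 α β
        rw [this]
        simp [hermi])
      have h3 := congrFun (congrFun h2 γ) δ
      rw [Matrix.of_apply, Matrix.zero_apply, neg_eq_zero] at h3
      exact h3
    intro α β γ δ
    have h2 : (Matrix.of fun α β => C α β γ δ : Matrix (Fin k) (Fin k) ℂ) = 0 := by
      refine eq_zero_of_hermi hT fun c => ?_
      rw [← h1 c γ δ]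
      unfold hermi
      refine Finset.sum_congr rfl fun α _ => Finset.sum_congr rfl fun β _ => ?_
      rw [Matrix.of_apply]; ring
    exact congrFun (congrFun h2 α) β

end Pool.Agent.Helper14.RK
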