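import Pool.Agent.Helper15.RK.GoalsF
import Pool.Agent.Helper63.SP.LA

/-! # RK-A LAK: linear algebra of the second fundamental form, several kernel fields -/

open Complex Matrix
open scoped ComplexConjugate ComplexOrder Matrix MatrixOrder

namespace Pool.Agent.Helper14.RK

open Pool.Agent.Helper95.Lin Pool.Agent.Helper16.Abund Pool.Agent.Helper92.Orb
  Pool.Agent.Helper10.SP Pool.Agent.Helper95.RK Pool.Agent.Helper15.RK

/-- RK-A LAK. -/
theorem lak : S_LAK := by
  intro n k H L v hH hLv hker honly X hLX hsX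
  have hHt : Hᵀ.PosSemidef := hH.transpose
  -- the matrix of `L`
  set Λ : Matrix (Fin k) (Fin n) ℂ := LinearMap.toMatrix' L with hΛ
  have hΛv : ∀ x : Cn n, Λ *ᵥ x = L x := fun x => by
    rw [hΛ]; exact LinearMap.toMatrix'_mulVec L x
  set E : Matrix (Fin n) (Fin n) ℂ := Λᴴ * Λ with hE
  have hEX : (Hᵀ + E) * X = Hᵀ * X := by
    rw [Matrix.add_mul]
    have h1 : Λ * X = 0 := by
      ext a b
      have := congrFun (hLX b) a
      rw [← hΛv] at this
      simpa [Matrix.mulVec, dotProduct, Matrix.mul_apply] using this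
    rw [hE, Matrix.mul_assoc, h1, Matrix.mul_zero, add_zero]
  have hEs : E.PosSemidef := by
    rw [hE]; exact Matrix.posSemidef_conjTranspose_mul_self Λ
  have hAs : (Hᵀ + E).PosSemidef := hHt.add hEs
  have hA : (Hᵀ + E).PosDef := by
    refine Matrix.PosDef.of_dotProduct_mulVec_pos hAs.isHermitian fun x hx => ?_
    refine lt_of_le_of_ne (hAs.dotProduct_mulVec_nonneg x) fun h0 => hx ?_
    have h1 := hHt.dotProduct_mulVec_nonneg x
    have h2 := hEs.dotProduct_mulVec_nonneg x
    rw [Matrix.add_mulVec, dotProduct_add] at h0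
    have h3 := (add_eq_zero_iff_of_nonneg h1 h2).1 h0.symm
    have h4 := (hHt.dotProduct_mulVec_zero_iff x).1 h3.1
    have h5 := (hEs.dotProduct_mulVec_zero_iff x).1 h3.2
    have h6 : L x = 0 := by
      rw [← hΛv]
      rw [hE] at h5
      have h7 : star x ⬝ᵥ ((Λᴴ * Λ) *ᵥ x) = 0 := by rw [h5, dotProduct_zero]
      rw [← Matrix.mulVec_mulVec, Matrix.dotProduct_mulVec, Matrix.vecMul_conjTranspose,
        star_star] at h7
      exact dotProduct_star_self_eq_zero.1 h7
    have h8 := honly x (fun j => by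
      have := congrFun h4 j
      simpa [Matrix.mulVec, dotProduct] using this)
    rw [h8, h6]
    simp
  have hc := Pool.Agent.Helper63.SP.core2 hA X X (by rw [hEX]; exact hsX) (by rw [hEX]; exact hsX)
  refine ⟨?_, hc.1, hc.2.1, hc.2.2.1⟩
  intro α
  set e : Cn n := X *ᵥ (fun j => conj (v α j)) with he
  have hcv : H *ᵥ (fun j => conj (v α j)) = 0 := by
    ext i
    have h1 := congrArg (starRingEnd ℂ) (hker α i)
    rw [map_sum, map_zero] at h1
    rw [Matrix.mulVec, dotProduct, Pi.zero_apply, ← h1]
    refine Finset.sum_congr rfl fun l _ => ?_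
    rw [map_mul]
    congr 1
    exact (hH.isHermitian.apply i l).symm
  have hHe : Hᵀ *ᵥ e = 0 := by
    rw [he, Matrix.mulVec_mulVec, ← hsX.eq, Matrix.transpose_mul, Matrix.transpose_transpose,
      ← Matrix.mulVec_mulVec, hcv, Matrix.mulVec_zero]
  have hLe : L e = 0 := by
    rw [← hΛv, he, Matrix.mulVec_mulVec]
    have h1 : Λ * X = 0 := by
      ext a b
      have := congrFun (hLX b) a
      rw [← hΛv] at this
      simpa [Matrix.mulVec, dotProduct, Matrix.mul_apply] using this
    rw [h1, Matrix.zero_mulVec]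
  have he0 : e = 0 := by
    rw [honly e (fun j => by
      have := congrFun hHe j
      simpa [Matrix.mulVec, dotProduct] using this), hLe]
    simp
  intro i
  have := congrFun he0 i
  simpa [he, Matrix.mulVec, dotProduct] using this

end Pool.Agent.Helper14.RK
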