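import Pool.Agent.Helper15.RK.GoalsF

/-! # RK-A TAUP: positivity for the torsion -/

open Complex Matrix
open scoped ComplexConjugate ComplexOrder Matrix MatrixOrder

namespace Pool.Agent.Helper14.RK

open Pool.Agent.Helper95.Lin Pool.Agent.Helper16.Abund Pool.Agent.Helper92.Orb
  Pool.Agent.Helper10.SP Pool.Agent.Helper95.RK Pool.Agent.Helper15.RK

/-- The inverse of a positive definite matrix is `C Cᴴ`. -/
lemma inv_eq_mul_conj {k : ℕ} {A : Matrix (Fin k) (Fin k) ℂ} (hA : A.PosDef) :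
    ∃ C : Matrix (Fin k) (Fin k) ℂ, IsUnit C.det ∧ ∀ a b, A⁻¹ a b = ∑ i, C a i * conj (C b i) := by
  obtain ⟨B, hB⟩ := CStarAlgebra.nonneg_iff_eq_star_mul_self.mp hA.posSemidef.nonneg
  rw [Matrix.star_eq_conjTranspose] at hB
  have hdet : IsUnit B.det := by
    rw [isUnit_iff_ne_zero]
    intro h0
    have h1 := hA.det_pos
    rw [hB, Matrix.det_mul, h0, mul_zero] at h1
    exact lt_irrefl _ h1
  have h1 : B⁻¹ * B = 1 := Matrix.nonsing_inv_mul B hdet
  have h2 : B * B⁻¹ = 1 := Matrix.mul_nonsing_inv B hdet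
  have hC : A⁻¹ = B⁻¹ * (B⁻¹)ᴴ := by
    refine Matrix.inv_eq_right_inv ?_
    rw [hB]
    calc Bᴴ * B * (B⁻¹ * (B⁻¹)ᴴ) = Bᴴ * (B * B⁻¹) * (B⁻¹)ᴴ := by simp only [Matrix.mul_assoc]
      _ = (B⁻¹ * B)ᴴ := by rw [h2, Matrix.mul_one, Matrix.conjTranspose_mul]
      _ = 1 := by rw [h1, Matrix.conjTranspose_one]
  refine ⟨B⁻¹, by rw [Matrix.det_nonsing_inv]; exact hdet.ringInverse, fun a b => ?_⟩
  rw [hC, Matrix.mul_apply]
  rfl

/-- Cancel an invertible matrix. -/
lemma cancel_unit {k : ℕ} {C : Matrix (Fin k) (Fin k) ℂ} (hC : IsUnit C.det) (f : Fin k → ℂ)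
    (h : ∀ i, ∑ a, C a i * f a = 0) : f = 0 := by
  have h1 : f ᵥ* C = 0 := by
    ext i
    rw [Matrix.vecMul, dotProduct, Pi.zero_apply, ← h i]
    exact Finset.sum_congr rfl fun a _ => mul_comm _ _
  have h2 : (f ᵥ* C) ᵥ* C⁻¹ = f := by
    rw [Matrix.vecMul_vecMul, Matrix.mul_nonsing_inv C hC, Matrix.vecMul_one]
  rw [← h2, h1, Matrix.zero_vecMul]

lemma cancel_unit_conj {k : ℕ} {C : Matrix (Fin k) (Fin k) ℂ} (hC : IsUnit C.det) (f : Fin k → ℂ)
    (h : ∀ i, ∑ a, conj (C a i) * f a = 0) : f = 0 := by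
  have h1 : (fun a => conj (f a)) = 0 := by
    refine cancel_unit hC _ fun i => ?_
    have := congrArg (starRingEnd ℂ) (h i)
    rw [map_sum, map_zero] at this
    rw [← this]
    refine Finset.sum_congr rfl fun a _ => ?_
    rw [map_mul, Complex.conj_conj]
  funext a
  have := congrFun h1 a
  simpa using this

/-- RK-A TAUP. -/
theorem taup : S_TAUP := by
  intro k H G τ hH hG
  obtain ⟨C, hCu, hC⟩ := inv_eq_mul_conj hH
  obtain ⟨E, hEu, hE⟩ := inv_eq_mul_conj hG
  -- components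
  set U : Fin k → Fin k → Fin k → ℂ := fun i j r =>
    ∑ α, conj (C α i) * ∑ γ, conj (C γ j) * ∑ q, E q r * τ α γ q with hU
  have key : ∑ α, ∑ β, ∑ γ, ∑ δ, H⁻¹ β α * H⁻¹ δ γ *
      ∑ p, ∑ q, τ α γ q * G⁻¹ q p * conj (τ β δ p) =
      ((∑ i, ∑ j, ∑ r, ‖U i j r‖ ^ 2 : ℝ) : ℂ) := by
    -- the innermost contraction
    have h1 : ∀ α β γ δ, ∑ p, ∑ q, τ α γ q * G⁻¹ q p * conj (τ β δ p) =
        ∑ r, (∑ q, E q r * τ α γ q) * conj (∑ p, E p r * τ β δ p) := by
      intro α β γ δ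
      calc ∑ p, ∑ q, τ α γ q * G⁻¹ q p * conj (τ β δ p)
          = ∑ p, ∑ q, ∑ r, E q r * τ α γ q * conj (E p r * τ β δ p) := by
            refine Finset.sum_congr rfl fun p _ => Finset.sum_congr rfl fun q _ => ?_
            rw [hE, Finset.mul_sum, Finset.sum_mul]
            refine Finset.sum_congr rfl fun r _ => ?_
            rw [map_mul]; ring
        _ = ∑ p, ∑ r, ∑ q, E q r * τ α γ q * conj (E p r * τ β δ p) :=
            Finset.sum_congr rfl fun p _ => Finset.sum_comm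
        _ = ∑ r, ∑ p, ∑ q, E q r * τ α γ q * conj (E p r * τ β δ p) := Finset.sum_comm
        _ = _ := by
            refine Finset.sum_congr rfl fun r _ => ?_
            rw [map_sum, Finset.mul_sum]
            refine Finset.sum_congr rfl fun p _ => ?_
            rw [Finset.sum_mul]
    -- contraction of one pair
    have h2 : ∀ f g : Fin k → ℂ, ∑ γ, ∑ δ, H⁻¹ δ γ * (f γ * conj (g δ)) =
        ∑ j, (∑ γ, conj (C γ j) * f γ) * conj (∑ δ, conj (C δ j) * g δ) := by
      intro f g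
      calc ∑ γ, ∑ δ, H⁻¹ δ γ * (f γ * conj (g δ))
          = ∑ γ, ∑ δ, ∑ j, conj (C γ j) * f γ * conj (conj (C δ j) * g δ) := by
            refine Finset.sum_congr rfl fun γ _ => Finset.sum_congr rfl fun δ _ => ?_
            rw [hC, Finset.sum_mul]
            refine Finset.sum_congr rfl fun j _ => ?_
            rw [map_mul, Complex.conj_conj]; ring
        _ = ∑ γ, ∑ j, ∑ δ, conj (C γ j) * f γ * conj (conj (C δ j) * g δ) :=
            Finset.sum_congr rfl fun γ _ => Finset.sum_comm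
        _ = ∑ j, ∑ γ, ∑ δ, conj (C γ j) * f γ * conj (conj (C δ j) * g δ) := Finset.sum_comm
        _ = _ := by
            refine Finset.sum_congr rfl fun j _ => ?_
            rw [map_sum, Finset.sum_mul]
            refine Finset.sum_congr rfl fun γ _ => ?_
            rw [Finset.mul_sum]
    have h3 : ∀ α β, ∑ γ, ∑ δ, H⁻¹ β α * H⁻¹ δ γ *
        ∑ p, ∑ q, τ α γ q * G⁻¹ q p * conj (τ β δ p) =
        ∑ r, ∑ j, H⁻¹ β α * ((∑ γ, conj (C γ j) * ∑ q, E q r * τ α γ q) *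
          conj (∑ δ, conj (C δ j) * ∑ p, E p r * τ β δ p)) := by
      intro α β
      calc ∑ γ, ∑ δ, H⁻¹ β α * H⁻¹ δ γ * ∑ p, ∑ q, τ α γ q * G⁻¹ q p * conj (τ β δ p)
          = ∑ γ, ∑ δ, ∑ r, H⁻¹ β α * (H⁻¹ δ γ * ((∑ q, E q r * τ α γ q) *
              conj (∑ p, E p r * τ β δ p))) := by
            refine Finset.sum_congr rfl fun γ _ => Finset.sum_congr rfl fun δ _ => ?_
            rw [h1, Finset.mul_sum]
            refine Finset.sum_congr rfl fun r _ => ?_
            ring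
        _ = ∑ γ, ∑ r, ∑ δ, H⁻¹ β α * (H⁻¹ δ γ * ((∑ q, E q r * τ α γ q) *
              conj (∑ p, E p r * τ β δ p))) := Finset.sum_congr rfl fun γ _ => Finset.sum_comm
        _ = ∑ r, ∑ γ, ∑ δ, H⁻¹ β α * (H⁻¹ δ γ * ((∑ q, E q r * τ α γ q) *
              conj (∑ p, E p r * τ β δ p))) := Finset.sum_comm
        _ = _ := by
            refine Finset.sum_congr rfl fun r _ => ?_
            rw [← Finset.mul_sum, ← h2 (fun γ => ∑ q, E q r * τ α γ q)
              (fun δ => ∑ p, E p r * τ β δ p), Finset.mul_sum]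
            refine Finset.sum_congr rfl fun γ _ => ?_
            rw [Finset.mul_sum]
    calc ∑ α, ∑ β, ∑ γ, ∑ δ, H⁻¹ β α * H⁻¹ δ γ *
          ∑ p, ∑ q, τ α γ q * G⁻¹ q p * conj (τ β δ p)
        = ∑ α, ∑ β, ∑ r, ∑ j, H⁻¹ β α * ((∑ γ, conj (C γ j) * ∑ q, E q r * τ α γ q) *
          conj (∑ δ, conj (C δ j) * ∑ p, E p r * τ β δ p)) :=
          Finset.sum_congr rfl fun α _ => Finset.sum_congr rfl fun β _ => h3 α β
      _ = ∑ α, ∑ r, ∑ β, ∑ j, H⁻¹ β α * ((∑ γ, conj (C γ j) * ∑ q, E q r * τ α γ q) *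
          conj (∑ δ, conj (C δ j) * ∑ p, E p r * τ β δ p)) :=
          Finset.sum_congr rfl fun α _ => Finset.sum_comm
      _ = ∑ r, ∑ α, ∑ β, ∑ j, H⁻¹ β α * ((∑ γ, conj (C γ j) * ∑ q, E q r * τ α γ q) *
          conj (∑ δ, conj (C δ j) * ∑ p, E p r * τ β δ p)) := Finset.sum_comm
      _ = ∑ r, ∑ j, ∑ α, ∑ β, H⁻¹ β α * ((∑ γ, conj (C γ j) * ∑ q, E q r * τ α γ q) *
          conj (∑ δ, conj (C δ j) * ∑ p, E p r * τ β δ p)) := by
          refine Finset.sum_congr rfl fun r _ => ?_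
          rw [Finset.sum_comm]
          calc ∑ β, ∑ α, ∑ j, H⁻¹ β α * ((∑ γ, conj (C γ j) * ∑ q, E q r * τ α γ q) *
                conj (∑ δ, conj (C δ j) * ∑ p, E p r * τ β δ p))
              = ∑ β, ∑ j, ∑ α, H⁻¹ β α * ((∑ γ, conj (C γ j) * ∑ q, E q r * τ α γ q) *
                conj (∑ δ, conj (C δ j) * ∑ p, E p r * τ β δ p)) :=
                Finset.sum_congr rfl fun β _ => Finset.sum_comm
            _ = ∑ j, ∑ β, ∑ α, H⁻¹ β α * ((∑ γ, conj (C γ j) * ∑ q, E q r * τ α γ q) *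
                conj (∑ δ, conj (C δ j) * ∑ p, E p r * τ β δ p)) := Finset.sum_comm
            _ = _ := Finset.sum_congr rfl fun j _ => Finset.sum_comm
      _ = ∑ r, ∑ j, ∑ i, U i j r * conj (U i j r) := by
          refine Finset.sum_congr rfl fun r _ => Finset.sum_congr rfl fun j _ => ?_
          rw [h2 (fun α => ∑ γ, conj (C γ j) * ∑ q, E q r * τ α γ q)
            (fun β => ∑ δ, conj (C δ j) * ∑ p, E p r * τ β δ p)]
      _ = ∑ i, ∑ j, ∑ r, U i j r * conj (U i j r) := by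
          calc ∑ r, ∑ j, ∑ i, U i j r * conj (U i j r)
              = ∑ r, ∑ i, ∑ j, U i j r * conj (U i j r) :=
                Finset.sum_congr rfl fun r _ => Finset.sum_comm
            _ = ∑ i, ∑ r, ∑ j, U i j r * conj (U i j r) := Finset.sum_comm
            _ = _ := Finset.sum_congr rfl fun i _ => Finset.sum_comm
      _ = _ := by
          push_cast
          refine Finset.sum_congr rfl fun i _ => Finset.sum_congr rfl fun j _ =>
            Finset.sum_congr rfl fun r _ => ?_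
          exact Complex.mul_conj' _
  rw [key, Complex.ofReal_re]
  refine ⟨by positivity, fun h0 => ?_⟩
  have h5 : ∀ i j r, U i j r = 0 := by
    intro i j r
    have h6 := (Finset.sum_eq_zero_iff_of_nonneg (fun a _ => by positivity)).1 h0 i
      (Finset.mem_univ i)
    have h7 := (Finset.sum_eq_zero_iff_of_nonneg (fun a _ => by positivity)).1 h6 j
      (Finset.mem_univ j)
    have h8 := (Finset.sum_eq_zero_iff_of_nonneg (fun a _ => by positivity)).1 h7 r
      (Finset.mem_univ r)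
    simpa using h8
  have h6 : ∀ j r α, ∑ γ, conj (C γ j) * ∑ q, E q r * τ α γ q = 0 := by
    intro j r α
    exact congrFun (cancel_unit_conj hCu (fun α => ∑ γ, conj (C γ j) * ∑ q, E q r * τ α γ q)
      fun i => h5 i j r) α
  have h7 : ∀ r α γ, ∑ q, E q r * τ α γ q = 0 := by
    intro r α γ
    exact congrFun (cancel_unit_conj hCu (fun γ => ∑ q, E q r * τ α γ q)
      fun j => h6 j r α) γ
  intro α γ q
  exact congrFun (cancel_unit hEu (fun q => τ α γ q) fun r => h7 r α γ) q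

end Pool.Agent.Helper14.RK
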