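import Pool.Agent.Helper15.RK.GoalsF

/-! # RK-A TRP: traces of products of semidefinite matrices -/

open Complex Matrix
open scoped ComplexConjugate ComplexOrder Matrix MatrixOrder

namespace Pool.Agent.Helper14.RK

open Pool.Agent.Helper95.Lin Pool.Agent.Helper16.Abund Pool.Agent.Helper92.Orb
  Pool.Agent.Helper10.SP Pool.Agent.Helper95.RK Pool.Agent.Helper15.RK

/-- `hermi` as a matrix product. -/
lemma hermi_eq_dot {k : ℕ} (M : Matrix (Fin k) (Fin k) ℂ) (c : Cn k) :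
    hermi M c c = star (fun i => conj (c i)) ⬝ᵥ (M *ᵥ fun i => conj (c i)) := by
  unfold hermi
  simp only [dotProduct, Matrix.mulVec, Pi.star_apply]
  refine Finset.sum_congr rfl fun i _ => ?_
  rw [Finset.mul_sum]
  refine Finset.sum_congr rfl fun j _ => ?_
  have : star (conj (c i)) = c i := Complex.conj_conj _
  rw [this]; ring

/-- A matrix with a real nonnegative quadratic form is semidefinite. -/
lemma posSemidef_of_hermi {k : ℕ} {M : Matrix (Fin k) (Fin k) ℂ}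
    (h : ∀ c : Cn k, (hermi M c c).im = 0 ∧ 0 ≤ (hermi M c c).re) : M.PosSemidef := by
  have key : ∀ x : Cn k, 0 ≤ star x ⬝ᵥ (M *ᵥ x) := by
    intro x
    have h1 := h (fun i => conj (x i))
    have h2 := hermi_eq_dot M (fun i => conj (x i))
    have h3 : (fun i => conj (conj (x i))) = x := by
      funext i; exact Complex.conj_conj _
    rw [h3] at h2
    rw [h2] at h1
    rw [Complex.nonneg_iff]
    exact ⟨h1.2, h1.1.symm⟩
  refine Matrix.PosSemidef.of_dotProduct_mulVec_nonneg ?_ key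
  rw [← Matrix.isSymmetric_toEuclideanLin_iff, LinearMap.isSymmetric_iff_inner_map_self_real]
  intro v
  have h4 : inner ℂ v (Matrix.toEuclideanLin M v) = star (WithLp.ofLp v) ⬝ᵥ (M *ᵥ (WithLp.ofLp v)) := by
    rw [EuclideanSpace.inner_eq_star_dotProduct, dotProduct_comm]
    rfl
  have h5 := key (WithLp.ofLp v)
  rw [← h4] at h5
  have h6 : conj (inner ℂ v (Matrix.toEuclideanLin M v)) = inner ℂ v (Matrix.toEuclideanLin M v) :=
    Complex.conj_eq_iff_im.2 (Complex.nonneg_iff.1 h5).2.symm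
  rw [inner_conj_symm] at h6
  rw [inner_conj_symm, h6]

/-- RK-A TRP. -/
theorem trp : S_TRP := by
  intro k A M hA hM
  have hMp := posSemidef_of_hermi hM
  obtain ⟨B, hB⟩ := CStarAlgebra.nonneg_iff_eq_star_mul_self.mp hA.posSemidef.nonneg
  rw [Matrix.star_eq_conjTranspose] at hB
  have hdet : IsUnit B.det := by
    rw [isUnit_iff_ne_zero]
    intro h0
    have h1 := hA.det_pos
    rw [hB, Matrix.det_mul, h0, mul_zero] at h1
    exact lt_irrefl _ h1
  have h1 : B⁻¹ * B = 1 := Matrix.nonsing_inv_mul B hdet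
  have h2 : B * B⁻¹ = 1 := Matrix.mul_nonsing_inv B hdet
  have hC : A⁻¹ = B⁻¹ * (B⁻¹)ᴴ := by
    refine Matrix.inv_eq_right_inv ?_
    rw [hB]
    calc Bᴴ * B * (B⁻¹ * (B⁻¹)ᴴ) = Bᴴ * (B * B⁻¹) * (B⁻¹)ᴴ := by simp only [Matrix.mul_assoc]
      _ = (B⁻¹ * B)ᴴ := by rw [h2, Matrix.mul_one, Matrix.conjTranspose_mul]
      _ = 1 := by rw [h1, Matrix.conjTranspose_one]
  have hP : ((B⁻¹)ᴴ * M * B⁻¹).PosSemidef := hMp.conjTranspose_mul_mul_same B⁻¹
  have htr : Matrix.trace (A⁻¹ * M) = Matrix.trace ((B⁻¹)ᴴ * M * B⁻¹) := by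
    rw [hC, Matrix.mul_assoc, Matrix.trace_mul_comm]
  rw [htr]
  have h3 := hP.trace_nonneg
  rw [Complex.nonneg_iff] at h3
  refine ⟨h3.2.symm, h3.1, fun h0 => ?_⟩
  have h4 : Matrix.trace ((B⁻¹)ᴴ * M * B⁻¹) = 0 := Complex.ext h0 h3.2.symm
  rw [hP.trace_eq_zero_iff] at h4
  calc M = (B⁻¹ * B)ᴴ * M * (B⁻¹ * B) := by
        rw [h1, Matrix.conjTranspose_one, Matrix.one_mul, Matrix.mul_one]
    _ = Bᴴ * ((B⁻¹)ᴴ * M * B⁻¹) * B := by
        rw [Matrix.conjTranspose_mul]; simp only [Matrix.mul_assoc]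
    _ = 0 := by rw [h4, Matrix.mul_zero, Matrix.zero_mul]

end Pool.Agent.Helper14.RK
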