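import Pool.Agent.Helper40.RK.GoalsE
import Pool.Agent.Helper95.RK.Basics
import Pool.Agent.Helper19.Lin.IDT
import Pool.Agent.Helper27.SP.SURJ

/-! # RK-NMLK: products and inverses of elements near the identity, corank `k` -/

open Complex Metric Set Filter Topology MeasureTheory Matrix
open scoped ContDiff ComplexConjugate

namespace Pool.Agent.Helper14.RK

open Pool.Agent.Helper95.Lin Pool.Agent.Helper10.SP Pool.Agent.Helper95.RK Pool.Agent.Helper36.RK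
  Pool.Agent.Helper40.RK

variable {b k : ℕ}

lemma TriK.HolOn.mono {t : TriK b k} {U V : Set (Cn b)} (h : t.HolOn U) (hV : V ⊆ U) :
    t.HolOn V :=
  ⟨h.1.mono hV, fun i j => (h.2.1 i j).mono hV, h.2.2.mono hV⟩

lemma TriK.HolOn.comp {t s : TriK b k} {U V : Set (Cn b)} (ht : t.HolOn U) (hs : s.HolOn V)
    (hm : MapsTo s.g V U) : (t.comp s).HolOn V := by
  refine ⟨ht.1.comp hs.1 hm, fun i j => ?_, ?_⟩
  · have : (fun z => (t.comp s).A z i j) = fun z => ∑ l, t.A (s.g z) i l * s.A z l j := by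
      funext z; simp [TriK.comp, Matrix.mul_apply]
    rw [this]
    exact DifferentiableOn.fun_sum fun l _ => ((ht.2.1 i l).comp hs.1 hm).mul (hs.2.1 l j)
  · have : (t.comp s).β = fun z => fun a => (∑ l, t.A (s.g z) a l * s.β z l) + t.β (s.g z) a := by
      funext z a; simp [TriK.comp, Matrix.mulVec, dotProduct]
    rw [this]
    refine differentiableOn_pi.2 fun a => ?_
    refine DifferentiableOn.add (DifferentiableOn.fun_sum fun l _ =>
      ((ht.2.1 a l).comp hs.1 hm).mul (differentiableOn_pi.1 hs.2.2 l)) ?_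
    exact (differentiableOn_pi.1 ht.2.2 a).comp hs.1 hm

lemma TriK.holOn_one (U : Set (Cn b)) : (TriK.one : TriK b k).HolOn U :=
  ⟨differentiableOn_id, fun _ _ => differentiableOn_const _, differentiableOn_const _⟩

/-- Identity theorem for scalar or vector valued functions in difference form. -/
lemma idt_eq {m : ℕ} {U : Set (Cn b)} (hU : IsOpen U) (hc : IsPreconnected U)
    {f g : Cn b → Cn m} (hf : DifferentiableOn ℂ f U) (hg : DifferentiableOn ℂ g U) {z₀ : Cn b}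
    (hz₀ : z₀ ∈ U) (h : ∀ᶠ z in 𝓝 z₀, f z = g z) : ∀ z ∈ U, f z = g z := by
  intro z hz
  have := _root_.Pool.Agent.Helper19.Lin.idt U hU hc (fun z => f z - g z) (hf.sub hg) z₀ hz₀
    (by filter_upwards [h] with z hz using by rw [hz, sub_self]) z hz
  exact sub_eq_zero.1 this

/-- Identity theorem for maps of type `TriK`. -/
lemma TriK.eqOn_of_germ {t s : TriK b k} {U : Set (Cn b)} (hU : IsOpen U) (hc : IsPreconnected U)
    (ht : t.HolOn U) (hs : s.HolOn U) {z₀ : Cn b} (hz₀ : z₀ ∈ U) {V : Set (Cn b)}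
    (hV : IsOpen V) (hz₀V : z₀ ∈ V) (h : t.EqOn s V) : t.EqOn s U := by
  have hn := hV.mem_nhds hz₀V
  intro z hz
  refine ⟨idt_eq hU hc ht.1 hs.1 hz₀ (by filter_upwards [hn] with x hx using (h x hx).1) z hz,
    ?_, idt_eq hU hc ht.2.2 hs.2.2 hz₀ (by filter_upwards [hn] with x hx using (h x hx).2.2) z hz⟩
  ext i j
  have := idt_eq (m := 1) hU hc (f := fun z _ => t.A z i j) (g := fun z _ => s.A z i j)
    (differentiableOn_pi.2 fun _ => ht.2.1 i j) (differentiableOn_pi.2 fun _ => hs.2.1 i j) hz₀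
    (by filter_upwards [hn] with x hx using by rw [(h x hx).2.1]) z hz
  exact congrFun this 0

lemma mb_mul_sub_one {X Y : Matrix (Fin k) (Fin k) ℂ} {δ : ℝ} (hδ : 0 ≤ δ) (hX : MB (X - 1) δ)
    (hY : MB (Y - 1) δ) : MB (X * Y - 1) (δ * δ + δ + δ) := by
  have : X * Y - 1 = (X - 1) * (Y - 1) + (X - 1) + (Y - 1) := by noncomm_ring
  rw [this]
  exact ((hX.mul hδ hY).add hX).add hY

lemma mb_inv_sub_one {X Y : Matrix (Fin k) (Fin k) ℂ} {δ : ℝ} (hδ : 0 ≤ δ) (hδ2 : δ ≤ 1 / 2)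
    (hX : MB (X - 1) δ) (hXY : X * Y = 1) : MB (Y - 1) (2 * δ) := by
  intro v
  have h1 : (Y - 1) *ᵥ v = - ((X - 1) *ᵥ (Y *ᵥ v)) := by
    rw [Matrix.sub_mulVec, Matrix.sub_mulVec, Matrix.mulVec_mulVec, hXY]
    simp only [Matrix.one_mulVec]
    abel
  have h2 : ‖(Y - 1) *ᵥ v‖ ≤ δ * ‖Y *ᵥ v‖ := by
    rw [h1, norm_neg]; exact hX _
  have h3 : ‖Y *ᵥ v‖ ≤ ‖v‖ + ‖(Y - 1) *ᵥ v‖ := by
    have : Y *ᵥ v = v + (Y - 1) *ᵥ v := by
      rw [Matrix.sub_mulVec, Matrix.one_mulVec]; abel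
    conv_lhs => rw [this]
    exact norm_add_le _ _
  have h4 : 0 ≤ ‖Y *ᵥ v‖ := norm_nonneg _
  have h5 : ‖Y *ᵥ v‖ ≤ 2 * ‖v‖ := by nlinarith [norm_nonneg v]
  calc ‖(Y - 1) *ᵥ v‖ ≤ δ * ‖Y *ᵥ v‖ := h2
    _ ≤ δ * (2 * ‖v‖) := mul_le_mul_of_nonneg_left h5 hδ
    _ = 2 * δ * ‖v‖ := by ring

theorem nmlk (hNCV : S_NCVK) : S_NMLK := by
  intro b k N c R P Φ Hf C hF i ρ hρ ε hε
  obtain ⟨ρ₁, hρ₁, hρ₁4⟩ : ∃ ρ₁, max ρ 3 < ρ₁ ∧ ρ₁ < 4 :=
    exists_between (max_lt hρ (by norm_num))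
  have hρρ₁ : ρ < ρ₁ := lt_of_le_of_lt (le_max_left _ _) hρ₁
  have h3ρ₁ : 3 < ρ₁ := lt_of_le_of_lt (le_max_right _ _) hρ₁
  obtain ⟨ρ₂, hρ₂, hρ₂4⟩ : ∃ ρ₂, ρ₁ < ρ₂ ∧ ρ₂ < 4 := exists_between hρ₁4
  obtain ⟨δ₁, hδ₁, hS⟩ := Pool.Agent.Helper27.SP.SURJ (c i) ρ ρ₁ hρρ₁ 1 one_pos
  set δ : ℝ := min (min (ε / 4) δ₁) (min (1 / 2) (ρ₂ - ρ₁)) with hδ
  have hδ0 : 0 < δ := lt_min (lt_min (by positivity) hδ₁) (lt_min (by norm_num) (by linarith))
  have hδε : δ ≤ ε / 4 := (min_le_left _ _).trans (min_le_left _ _)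
  have hδδ : δ ≤ δ₁ := (min_le_left _ _).trans (min_le_right _ _)
  have hδ1 : δ ≤ 1 / 2 := (min_le_right _ _).trans (min_le_left _ _)
  have hδρ : δ ≤ ρ₂ - ρ₁ := (min_le_right _ _).trans (min_le_right _ _)
  obtain ⟨η, hη, H1⟩ := hNCV c R P Φ Hf C hF i (c i) 3 (by norm_num)
    (ball_subset_ball (by norm_num)) ρ₂ hρ₂4 δ hδ0
  have hsub : ball (c i) ρ ⊆ ball (c i) ρ₁ := ball_subset_ball hρρ₁.le
  have hsub2 : ball (c i) ρ₁ ⊆ ball (c i) ρ₂ := ball_subset_ball hρ₂.le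
  have hsub3 : ball (c i) ρ₂ ⊆ ball (c i) 4 := ball_subset_ball hρ₂4.le
  have hbig : ∀ s, NrK c P i 3 η s → ∀ z ∈ ball (c i) ρ₂,
      ‖s.g z - z‖ ≤ δ ∧ MB (s.A z - 1) δ := fun s hs => H1 s hs.1 hs.2
  have hmv : ∀ (f : Cn b → Cn b) (z : Cn b), z ∈ ball (c i) ρ₁ → ‖f z - z‖ ≤ δ →
      f z ∈ ball (c i) ρ₂ := by
    intro f z hz h
    rw [mem_ball] at hz ⊢
    have h1 : dist (f z) z ≤ δ := by rw [dist_eq_norm]; exact h
    have h2 := dist_triangle (f z) z (c i)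
    linarith
  have hcen : ∀ r : ℝ, 0 < r → c i ∈ ball (c i) r := fun r hr => mem_ball_self hr
  have hci₁ : c i ∈ ball (c i) ρ₁ := hcen _ (by linarith)
  have hB2 : ∀ y ∈ ball (c i) 2, y ∈ Bd c 2 := fun y hy => mem_iUnion.2 ⟨i, hy⟩
  refine ⟨η, hη, fun t ht => ?_⟩
  have htb := hbig t ht
  have htP := ht.1.1
  obtain ⟨-, -, htH, -⟩ := hF.holo _ _ htP
  have htm : MapsTo t.g (ball (c i) ρ₁) (ball (c i) 4) := fun z hz =>
    hsub3 (hmv t.g z hz (htb z (hsub2 hz)).1)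
  refine ⟨fun s hs => ?_, fun z hz => htm (hsub hz), ?_⟩
  · -- products
    have hsb := hbig s hs
    have hsP := hs.1.1
    obtain ⟨-, -, hsH, -⟩ := hF.holo _ _ hsP
    have hsm : MapsTo s.g (ball (c i) ρ₁) (ball (c i) 4) := fun z hz =>
      hsub3 (hmv s.g z hz (hsb z (hsub2 hz)).1)
    refine ⟨fun z hz => hsm (hsub hz), ?_⟩
    have hP1 : P (ball (c i) ρ₁) (t.comp s) :=
      hF.comp _ _ _ t s htP hsP isOpen_ball (ball_subset_ball hρ₁4.le) hsm
    have hci2 : (t.comp s).g (c i) ∈ Bd c 2 := by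
      apply hB2
      have h1 := hsb (c i) (hcen _ (by linarith))
      have h2 := hmv s.g (c i) hci₁ h1.1
      have h3 := htb _ h2
      change t.g (s.g (c i)) ∈ ball (c i) 2
      rw [mem_ball, dist_eq_norm]
      calc ‖t.g (s.g (c i)) - c i‖ = ‖(t.g (s.g (c i)) - s.g (c i)) + (s.g (c i) - c i)‖ := by
            congr 1; abel
        _ ≤ δ + δ := (norm_add_le _ _).trans (add_le_add h3.1 h1.1)
        _ < 2 := by linarith
    obtain ⟨u, U', huP, hU'o, hcU', hU's, hue⟩ := hF.ext i (c i) (hcen 2 (by norm_num))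
      (ball (c i) ρ₁) (t.comp s) hP1 hci₁ hci2
    obtain ⟨-, -, huH, -⟩ := hF.holo _ _ huP
    have hue1 : u.EqOn (t.comp s) (ball (c i) ρ₁) :=
      TriK.eqOn_of_germ isOpen_ball (convex_ball _ _).isPreconnected
        (TriK.HolOn.mono huH (ball_subset_ball hρ₁4.le))
        (TriK.HolOn.comp htH (TriK.HolOn.mono hsH (ball_subset_ball hρ₁4.le)) hsm)
        hci₁ hU'o hcU' hue
    refine ⟨u, ⟨⟨huP, c i, hcen 2 (by norm_num), ?_⟩, fun z hz => ?_⟩, fun z hz => hue1 z (hsub hz)⟩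
    · rw [(hue1 (c i) hci₁).1]; exact hci2
    · obtain ⟨e1, e2, -⟩ := hue1 z (hsub hz)
      have e1' : u.g z = t.g (s.g z) := e1
      have e2' : u.A z = t.A (s.g z) * s.A z := e2
      obtain ⟨s1, s2⟩ := hsb z (hsub2 (hsub hz))
      obtain ⟨t1, t2⟩ := htb (s.g z) (hmv s.g z (hsub hz) s1)
      constructor
      · rw [e1']
        calc ‖t.g (s.g z) - z‖ = ‖(t.g (s.g z) - s.g z) + (s.g z - z)‖ := by
              congr 1; abel
          _ ≤ δ + δ := (norm_add_le _ _).trans (add_le_add t1 s1)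
          _ ≤ ε := by linarith
      · rw [e2']
        refine (mb_mul_sub_one hδ0.le t2 s2).mono ?_
        nlinarith
  · -- inverses
    have htci := htb (c i) (hcen _ (by linarith))
    obtain ⟨s, U', U'', hsP, htU', hU''o, hcU'', hU''s, hmU'', hse⟩ :=
      hF.inv _ _ htP (c i) (hcen 4 (by norm_num))
    have hy2 : t.g (c i) ∈ ball (c i) 2 := by
      rw [mem_ball, dist_eq_norm]
      linarith [htci.1]
    have hsy : s.g (t.g (c i)) = c i := (hse (c i) hcU'').1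
    obtain ⟨u, U₁, huP, hU₁o, hyU₁, hU₁s, hue⟩ := hF.ext i (t.g (c i)) hy2 U' s hsP htU'
      (by rw [hsy]; exact hB2 _ (hcen 2 (by norm_num)))
    obtain ⟨-, -, huH, -⟩ := hF.holo _ _ huP
    have huc : (u.comp t).EqOn TriK.one (ball (c i) ρ₁) := by
      have hV : IsOpen (ball (c i) ρ₁ ∩ t.g ⁻¹' U₁) :=
        (htH.1.continuousOn.mono (ball_subset_ball hρ₁4.le)).isOpen_inter_preimage isOpen_ball hU₁o
      refine TriK.eqOn_of_germ isOpen_ball (convex_ball _ _).isPreconnected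
        (TriK.HolOn.comp huH (TriK.HolOn.mono htH (ball_subset_ball hρ₁4.le)) htm)
        (TriK.holOn_one _) hci₁ (hV.inter hU''o) ⟨⟨hci₁, hyU₁⟩, hcU''⟩ ?_
      rintro z ⟨⟨hz1, hz2⟩, hz3⟩
      obtain ⟨e1, e2, e3⟩ := hue (t.g z) hz2
      obtain ⟨f1, f2, f3⟩ := hse z hz3
      refine ⟨?_, ?_, ?_⟩
      · change u.g (t.g z) = _; rw [e1]; exact f1
      · change u.A (t.g z) * t.A z = _; rw [e2]; exact f2
      · change u.A (t.g z) *ᵥ t.β z + u.β (t.g z) = _; rw [e2, e3]; exact f3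
    have hsurj : ∀ w ∈ ball (c i) ρ, ∃ z ∈ ball (c i) ρ₁, t.g z = w := by
      intro w hw
      obtain ⟨z, hz, h1, -⟩ := (hS t.g (htH.1.mono (ball_subset_ball hρ₁4.le))
        (fun z hz => ((htb z (hsub2 hz)).1).trans hδδ)).1 w hw
      exact ⟨z, hz, h1⟩
    refine ⟨u, ⟨⟨huP, t.g (c i), hy2, ?_⟩, fun w hw => ?_⟩, fun w hw => ?_,
      fun z hz => huc z (hsub hz), fun w hw => ?_⟩
    · rw [(hue _ hyU₁).1, hsy]; exact hB2 _ (hcen 2 (by norm_num))
    · obtain ⟨z, hz, rfl⟩ := hsurj w hw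
      obtain ⟨e1, e2, -⟩ := huc z hz
      have e1' : u.g (t.g z) = z := e1
      have e2' : u.A (t.g z) * t.A z = 1 := e2
      obtain ⟨t1, t2⟩ := htb z (hsub2 hz)
      constructor
      · rw [e1', norm_sub_rev]; linarith
      · refine (mb_inv_sub_one hδ0.le hδ1 t2 (mul_eq_one_comm.1 e2')).mono ?_
        linarith
    · obtain ⟨z, hz, rfl⟩ := hsurj w hw
      have e1' : u.g (t.g z) = z := (huc z hz).1
      rw [e1']
      exact hsub3 (hsub2 hz)
    · obtain ⟨z, hz, rfl⟩ := hsurj w hw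
      obtain ⟨e1, e2, e3⟩ := huc z hz
      have e1' : u.g (t.g z) = z := e1
      have e2' : u.A (t.g z) * t.A z = 1 := e2
      have e3' : u.A (t.g z) *ᵥ t.β z + u.β (t.g z) = 0 := e3
      have e4 : t.A z * u.A (t.g z) = 1 := mul_eq_one_comm.1 e2'
      refine ⟨?_, ?_, ?_⟩
      · change t.g (u.g (t.g z)) = _
        rw [e1']; rfl
      · change t.A (u.g (t.g z)) * u.A (t.g z) = _
        rw [e1']; exact e4
      · change t.A (u.g (t.g z)) *ᵥ u.β (t.g z) + t.β (u.g (t.g z)) = 0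
        rw [e1', eq_neg_of_add_eq_zero_right e3', Matrix.mulVec_neg, Matrix.mulVec_mulVec, e4,
          Matrix.one_mulVec, neg_add_cancel]

end Pool.Agent.Helper14.RK
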